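import Mathlib

set_option autoImplicit false

/-!
# MP_af8792: the double Zarankiewicz number is not `O(m n^{1/2} + n)`

Split rows and columns into halves; occupy exactly the two diagonal blocks, pairing each cell of
the first block with the corresponding cell of the second block by a 2-edge. There is no
generalized `C₄`-cycle, so `z₂(m,n) ≥ ⌊m/2⌋⌊n/2⌋`.
-/

namespace Pool.Agent.Results.MP_af8792_co.DiagonalBlocks

/-- A configuration `(E₁, E₂)` on the grid `[m] × [n]`: the 2-edge `(i,j;k,l)` is the pair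
`((i,j),(k,l))`; it needs `i ≠ k`, `j ≠ l`, and no cell is occupied by two different edges. -/
structure Configuration (m n : ℕ) where
  E1 : Finset (Fin m × Fin n)
  E2 : Finset ((Fin m × Fin n) × (Fin m × Fin n))
  rows_ne : ∀ e ∈ E2, e.1.1 ≠ e.2.1
  cols_ne : ∀ e ∈ E2, e.1.2 ≠ e.2.2
  disjoint_12 : ∀ c ∈ E1, ∀ e ∈ E2, c ≠ e.1 ∧ c ≠ e.2
  disjoint_22 : ∀ e ∈ E2, ∀ f ∈ E2, e ≠ f → e.1 ≠ f.1 ∧ e.1 ≠ f.2 ∧ e.2 ≠ f.1 ∧ e.2 ≠ f.2

/-- The cell `c` is occupied. -/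
def Configuration.Occupied {m n : ℕ} (G : Configuration m n) (c : Fin m × Fin n) : Prop :=
  c ∈ G.E1 ∨ ∃ e ∈ G.E2, c = e.1 ∨ c = e.2

/-- Case 1 of a generalized `C₄`-cycle. -/
def Configuration.Cycle1 {m n : ℕ} (G : Configuration m n) : Prop :=
  ∃ (i k : Fin m) (j l : Fin n), i ≠ k ∧ j ≠ l ∧
    (i, j) ∈ G.E1 ∧ (i, l) ∈ G.E1 ∧ (k, j) ∈ G.E1 ∧ (k, l) ∈ G.E1

/-- Case 2 of a generalized `C₄`-cycle. -/
def Configuration.Cycle2 {m n : ℕ} (G : Configuration m n) : Prop :=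
  ∃ (i k : Fin m) (j l : Fin n), ((i, j), (k, l)) ∈ G.E2 ∧
    G.Occupied (i, l) ∧ G.Occupied (k, j)

/-- Case 3 of a generalized `C₄`-cycle. -/
def Configuration.Cycle3 {m n : ℕ} (G : Configuration m n) : Prop :=
  ∃ (i p k : Fin m) (j q l : Fin n), ((i, j), (p, q)) ∈ G.E2 ∧
    [(k, l), (k, j), (k, q), (i, l), (p, l)].Pairwise (· ≠ ·) ∧
    ∀ c ∈ [(k, l), (k, j), (k, q), (i, l), (p, l)], G.Occupied c

/-- No generalized `C₄`-cycle. -/
def Configuration.CycleFree {m n : ℕ} (G : Configuration m n) : Prop :=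
  ¬ G.Cycle1 ∧ ¬ G.Cycle2 ∧ ¬ G.Cycle3

/-- The double Zarankiewicz number `z₂(m,n)`. -/
noncomputable def z2 (m n : ℕ) : ℕ :=
  sSup {k : ℕ | ∃ G : Configuration m n, G.CycleFree ∧ k = G.E1.card + G.E2.card}

/-! ### the construction -/

def cellA (m n : ℕ) (x : Fin (m / 2) × Fin (n / 2)) : Fin m × Fin n :=
  (⟨x.1.val, by have := x.1.isLt; omega⟩, ⟨x.2.val, by have := x.2.isLt; omega⟩)

def cellB (m n : ℕ) (x : Fin (m / 2) × Fin (n / 2)) : Fin m × Fin n :=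
  (⟨m / 2 + x.1.val, by have := x.1.isLt; omega⟩, ⟨n / 2 + x.2.val, by have := x.2.isLt; omega⟩)

theorem cellA_inj (m n : ℕ) {x y : Fin (m / 2) × Fin (n / 2)} (h : cellA m n x = cellA m n y) :
    x = y := by
  simp only [cellA, Prod.mk.injEq, Fin.mk.injEq] at h
  exact Prod.ext (Fin.ext h.1) (Fin.ext h.2)

theorem cellB_inj (m n : ℕ) {x y : Fin (m / 2) × Fin (n / 2)} (h : cellB m n x = cellB m n y) :
    x = y := by
  simp only [cellB, Prod.mk.injEq, Fin.mk.injEq] at h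
  exact Prod.ext (Fin.ext (by omega)) (Fin.ext (by omega))

theorem cellA_ne_cellB (m n : ℕ) (x y : Fin (m / 2) × Fin (n / 2)) :
    cellA m n x ≠ cellB m n y := by
  intro h
  simp only [cellA, cellB, Prod.mk.injEq, Fin.mk.injEq] at h
  have := x.1.isLt
  omega

def pairEmb (m n : ℕ) :
    (Fin (m / 2) × Fin (n / 2)) ↪ ((Fin m × Fin n) × (Fin m × Fin n)) :=
  ⟨fun x => (cellA m n x, cellB m n x), fun x y h => cellA_inj m n (congrArg Prod.fst h)⟩

def config (m n : ℕ) : Configuration m n where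
  E1 := ∅
  E2 := Finset.univ.map (pairEmb m n)
  rows_ne := by
    intro e he
    obtain ⟨x, _, rfl⟩ := Finset.mem_map.1 he
    simp only [pairEmb, Function.Embedding.coeFn_mk, cellA, cellB, ne_eq, Fin.mk.injEq]
    have := x.1.isLt
    omega
  cols_ne := by
    intro e he
    obtain ⟨x, _, rfl⟩ := Finset.mem_map.1 he
    simp only [pairEmb, Function.Embedding.coeFn_mk, cellA, cellB, ne_eq, Fin.mk.injEq]
    have := x.2.isLt
    omega
  disjoint_12 := by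
    intro c hc
    exact absurd hc (Finset.notMem_empty c)
  disjoint_22 := by
    intro e he f hf hef
    obtain ⟨x, _, rfl⟩ := Finset.mem_map.1 he
    obtain ⟨y, _, rfl⟩ := Finset.mem_map.1 hf
    have hxy : x ≠ y := fun h => hef (by rw [h])
    refine ⟨fun h => hxy (cellA_inj m n h), cellA_ne_cellB m n x y,
      (cellA_ne_cellB m n y x).symm, fun h => hxy (cellB_inj m n h)⟩

/-- An occupied cell lies in one of the two diagonal blocks. -/
theorem occupied_block {m n : ℕ} {c : Fin m × Fin n} (h : (config m n).Occupied c) :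
    (c.1.val < m / 2 ∧ c.2.val < n / 2) ∨ (m / 2 ≤ c.1.val ∧ n / 2 ≤ c.2.val) := by
  rcases h with h | ⟨e, he, h⟩
  · exact absurd h (Finset.notMem_empty c)
  · obtain ⟨x, _, rfl⟩ := Finset.mem_map.1 he
    rcases h with rfl | rfl
    · left
      exact ⟨x.1.isLt, x.2.isLt⟩
    · right
      simp [pairEmb, cellB]

theorem mem_E2 {m n : ℕ} {i k : Fin m} {j l : Fin n} (h : ((i, j), (k, l)) ∈ (config m n).E2) :
    i.val < m / 2 ∧ j.val < n / 2 ∧ m / 2 ≤ k.val ∧ n / 2 ≤ l.val := by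
  obtain ⟨x, _, hx⟩ := Finset.mem_map.1 h
  simp only [pairEmb, Function.Embedding.coeFn_mk, cellA, cellB, Prod.mk.injEq] at hx
  obtain ⟨⟨rfl, rfl⟩, rfl, rfl⟩ := hx
  have h1 := x.1.isLt
  have h2 := x.2.isLt
  refine ⟨h1, h2, ?_, ?_⟩ <;> simp

theorem config_cycleFree (m n : ℕ) : (config m n).CycleFree := by
  refine ⟨?_, ?_, ?_⟩
  · rintro ⟨i, k, j, l, _, _, h, _⟩
    exact absurd h (Finset.notMem_empty _)
  · rintro ⟨i, k, j, l, h, h1, _⟩
    have h2 := mem_E2 h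
    have h3 := occupied_block h1
    simp only at h3
    omega
  · rintro ⟨i, p, k, j, q, l, h, _, hocc⟩
    have h2 := mem_E2 h
    have h3 := occupied_block (hocc (k, j) (by simp))
    have h4 := occupied_block (hocc (k, q) (by simp))
    simp only at h3 h4
    omega

theorem bddAbove (m n : ℕ) :
    BddAbove {k : ℕ | ∃ G : Configuration m n, G.CycleFree ∧ k = G.E1.card + G.E2.card} := by
  refine ⟨Fintype.card (Fin m × Fin n) +
    Fintype.card ((Fin m × Fin n) × (Fin m × Fin n)), ?_⟩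
  rintro k ⟨G, _, rfl⟩
  exact Nat.add_le_add (Finset.card_le_univ _) (Finset.card_le_univ _)

theorem le_z2 (m n : ℕ) : (m / 2) * (n / 2) ≤ z2 m n := by
  apply le_csSup (bddAbove m n)
  refine ⟨config m n, config_cycleFree m n, ?_⟩
  simp [config]

/-- `z₂(m,n) ≥ ⌊m/2⌋⌊n/2⌋`, hence no constant `C` works: the ratio
`z₂(m,n) / (m n^{1/2} + n)` is unbounded. -/
theorem result :
    (∀ m n : ℕ, 2 ≤ m → 2 ≤ n → (m / 2) * (n / 2) ≤ z2 m n) ∧
    ¬ ∃ C : ℝ, ∀ m n : ℕ, 2 ≤ m → 2 ≤ n →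
      (z2 m n : ℝ) ≤ C * ((m : ℝ) * (n : ℝ) ^ (1 / 2 : ℝ) + n) := by
  refine ⟨fun m n _ _ => le_z2 m n, ?_⟩
  rintro ⟨C, hC⟩
  -- use `m = n = 4 s²`
  obtain ⟨s, hs⟩ := exists_nat_gt (max (4 * C) 1)
  have hs1 : (1 : ℝ) < s := lt_of_le_of_lt (le_max_right _ _) hs
  have hs2 : 4 * C < s := lt_of_le_of_lt (le_max_left _ _) hs
  have hsn : 1 < s := by exact_mod_cast hs1
  have hm : 2 ≤ 4 * s ^ 2 := by nlinarith
  have h1 := hC (4 * s ^ 2) (4 * s ^ 2) hm hm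
  have h2 := le_z2 (4 * s ^ 2) (4 * s ^ 2)
  have h3 : 4 * s ^ 2 / 2 = 2 * s ^ 2 := by omega
  rw [h3] at h2
  have h4 : ((2 * s ^ 2 * (2 * s ^ 2) : ℕ) : ℝ) ≤ (z2 (4 * s ^ 2) (4 * s ^ 2) : ℝ) := by
    exact_mod_cast h2
  have h5 : (((4 * s ^ 2 : ℕ) : ℝ)) ^ (1 / 2 : ℝ) = 2 * s := by
    rw [← Real.sqrt_eq_rpow]
    have : ((4 * s ^ 2 : ℕ) : ℝ) = (2 * s) ^ 2 := by push_cast; ring
    rw [this, Real.sqrt_sq (by positivity)]
  rw [h5] at h1
  push_cast at h1 h4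
  have h6 : (4 : ℝ) * s ^ 4 ≤ C * (8 * s ^ 3 + 4 * s ^ 2) := by nlinarith
  have hs0 : (0 : ℝ) < s := by linarith
  have h7 : C * (8 * (s : ℝ) ^ 3 + 4 * s ^ 2) < s / 4 * (8 * (s : ℝ) ^ 3 + 4 * s ^ 2) := by
    apply mul_lt_mul_of_pos_right (by linarith) (by positivity)
  have h8 : (s : ℝ) ^ 3 < s ^ 4 := by
    have : (s : ℝ) ^ 4 = s ^ 3 * s := by ring
    rw [this]
    nlinarith [pow_pos hs0 3]
  nlinarith

end Pool.Agent.Results.MP_af8792_co.DiagonalBlocks
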